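import Mathlib

/-!
# Automorphisms of the complex numbers and Galois groups
-/

namespace Pool.Agent.H977R3.CM

open NumberField

/-- Automorphisms of `ℂ` restrict to a number field that is Galois over the rationals. -/
theorem exists_gal {L : Type*} [Field L] [NumberField L] [IsGalois ℚ L] (j : L →+* ℂ)
    (σ : ℂ ≃+* ℂ) : ∃ g : L ≃ₐ[ℚ] L, ∀ x, σ (j x) = j (g x) := by
  let _ : Algebra L ℂ := j.toAlgebra
  have _ : IsScalarTower ℚ L ℂ := IsScalarTower.of_algebraMap_eq fun x => by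
    rw [eq_ratCast, eq_ratCast]
    exact (map_ratCast j x).symm
  let χ : ℂ →ₐ[ℚ] ℂ := (σ : ℂ →+* ℂ).toRatAlgHom
  refine ⟨AlgEquiv.ofBijective (χ.restrictNormal L) (AlgHom.normal_bijective ℚ L L _), fun x => ?_⟩
  exact (χ.restrictNormal_commutes L x).symm

/-- Automorphisms of a subfield extend to `ℂ`. -/
theorem exists_aut {L : Type*} [Field L] (j : L →+* ℂ) (g : L ≃+* L) :
    ∃ σ : ℂ ≃+* ℂ, ∀ x, σ (j x) = j (g x) := by
  let _ : Algebra L ℂ := j.toAlgebra
  obtain ⟨s, hs⟩ := exists_isTranscendenceBasis L ℂ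
  have _ : IsAlgClosure (Algebra.adjoin L (Set.range (Subtype.val : s → ℂ))) ℂ :=
    IsAlgClosed.isAlgClosure_of_transcendence_basis _ hs
  let A := hs.1.aevalEquiv
  let e : Algebra.adjoin L (Set.range (Subtype.val : s → ℂ)) ≃+*
      Algebra.adjoin L (Set.range (Subtype.val : s → ℂ)) :=
    A.symm.toRingEquiv.trans ((MvPolynomial.mapEquiv s g).trans A.toRingEquiv)
  refine ⟨IsAlgClosure.equivOfEquiv ℂ ℂ e, fun x => ?_⟩
  have h1 : j x = algebraMap (Algebra.adjoin L (Set.range (Subtype.val : s → ℂ))) ℂ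
      (algebraMap L _ x) := rfl
  have h2 : j (g x) = algebraMap (Algebra.adjoin L (Set.range (Subtype.val : s → ℂ))) ℂ
      (algebraMap L _ (g x)) := rfl
  rw [h1, IsAlgClosure.equivOfEquiv_algebraMap, h2]
  congr 1
  change A (MvPolynomial.map (g : L →+* L) (A.symm (algebraMap L _ x))) = algebraMap L _ (g x)
  rw [AlgEquiv.commutes, MvPolynomial.algebraMap_eq, MvPolynomial.map_C,
    ← MvPolynomial.algebraMap_eq, AlgEquiv.commutes]
  rfl

end Pool.Agent.H977R3.CM
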