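import Mathlib
import Pool.Agent.H204R3.CM.Defs

/-!
# Exceptional CM types
-/

namespace Pool.Agent.H977R3.CM

open NumberField Pool.Agent.H204R3.CM

/-- The embeddings obtained from the complex embedding `φ` of `E` by the automorphisms of the
complex numbers that belong to the group `H`. -/
def orb {E : Type*} [Field E] (H : Subgroup (ℂ ≃+* ℂ)) (φ : E →+* ℂ) : Set (E →+* ℂ) :=
  {ψ | ∃ σ ∈ H, ψ = (σ : ℂ →+* ℂ).comp φ}

/-- The exceptional CM types of a CM field of degree `2 r ^ k`: whenever a group of automorphisms of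
the complex numbers has an orbit of `r ^ k` embeddings, `r` divides the difference of the numbers
of elements of the orbit inside and outside the CM type. -/
def Exceptional (E : Type*) [Field E] (r k : ℕ) : Set (Set (E →+* ℂ)) :=
  {Φ | IsCMType Φ ∧ ∀ (H : Subgroup (ℂ ≃+* ℂ)) (φ : E →+* ℂ), (orb H φ).ncard = r ^ k →
    (r : ℤ) ∣ ((orb H φ ∩ Φ).ncard : ℤ) - ((orb H φ \ Φ).ncard : ℤ)}

/-- The number of subsets `A` of a set with `n` elements such that `r` divides `2 |A| - n`. -/
def numSubsets (r n : ℕ) : ℕ :=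
  ∑ a ∈ (Finset.range (n + 1)).filter (fun a : ℕ => (r : ℤ) ∣ 2 * (a : ℤ) - (n : ℤ)), n.choose a

/-- The fields `E i` are pairwise independent: for `i ≠ i'` and all complex embeddings `φ` of `E i`
and `ψ` of `E i'` some automorphism of the complex numbers is the identity on `φ (E i)` and the
complex conjugation on `ψ (E i')`. -/
def PairwiseIndep {ι : Type*} (E : ι → Type*) [∀ i, Field (E i)] : Prop :=
  ∀ i i', i ≠ i' → ∀ (φ : E i →+* ℂ) (ψ : E i' →+* ℂ), ∃ σ : ℂ ≃+* ℂ,
    (∀ x, σ (φ x) = φ x) ∧ ∀ y, σ (ψ y) = (starRingEnd ℂ) (ψ y)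

/-- The wedge products `B 0 ∧ ... ∧ B (m - 1)` of Hodge classes of degree two on a complex torus
with rational homology `W` and tangent space `T`. -/
def wedgeSet {W T : Type*} [AddCommGroup W] [Module ℚ W] [AddCommGroup T] [Module ℂ T]
    (per : W →+ T) (m : ℕ) : Set (W [⋀^Fin m × Fin 2]→ₗ[ℚ] ℚ) :=
  {g | ∃ B : Fin m → W [⋀^Fin 2]→ₗ[ℚ] ℚ, (∀ l, IsHodge per (B l)) ∧
    ∀ v, g v = ∑ σ : Equiv.Perm (Fin m × Fin 2), (Equiv.Perm.sign σ : ℤ) *
      ∏ l, B l ![v (σ (l, 0)), v (σ (l, 1))]}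

/-- All rational Hodge classes on the torus are rational linear combinations of wedge products of
Hodge classes of degree two. -/
def HodgeGenerated {W T : Type*} [AddCommGroup W] [Module ℚ W] [AddCommGroup T] [Module ℂ T]
    (per : W →+ T) : Prop :=
  ∀ (m : ℕ) (f : W [⋀^Fin m × Fin 2]→ₗ[ℚ] ℚ), IsHodge per f →
    f ∈ Submodule.span ℚ (wedgeSet per m)

end Pool.Agent.H977R3.CM
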