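import Mathlib
import Pool.Agent.H977R3.CM.Defs

/-!
# Exceptional CM types for towers
-/

namespace Pool.Agent.H977R3.CM

open NumberField Pool.Agent.H204R3.CM

/-- The number of elements of `Φ` which extend the embedding `τ` of the subfield `E₀`. -/
noncomputable def mult {E₀ E : Type*} [Field E₀] [Field E] [Algebra E₀ E] (Φ : Set (E →+* ℂ))
    (τ : E₀ →+* ℂ) : ℕ :=
  {φ : E →+* ℂ | φ ∈ Φ ∧ φ.comp (algebraMap E₀ E) = τ}.ncard

/-- The CM types `Φ` of `E` that are exceptional with respect to the subfield `E₀` and the prime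
`r`: the multiplicities of the embeddings of `E₀` in `Φ` satisfy modulo `r` a nontrivial
antisymmetric linear relation that is preserved by all automorphisms of the complex numbers. -/
def TowerExceptional (E₀ E : Type*) [Field E₀] [NumberField E₀] [Field E] [Algebra E₀ E] (r : ℕ) :
    Set (Set (E →+* ℂ)) :=
  {Φ | IsCMType Φ ∧ ∃ b : (E₀ →+* ℂ) → ZMod r, (∃ τ, b τ ≠ 0) ∧
    (∀ τ, b (ComplexEmbedding.conjugate τ) = -b τ) ∧
    ∀ σ : ℂ ≃+* ℂ, ∑ τ, b τ * (mult Φ ((σ : ℂ →+* ℂ).comp τ) : ZMod r) = 0}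

/-- No automorphism of the complex numbers permutes the embeddings of `E₀` by a permutation of
order `r`. -/
def NoOrder (E₀ : Type*) [Field E₀] (r : ℕ) : Prop :=
  ∀ σ : ℂ ≃+* ℂ, (∀ τ : E₀ →+* ℂ, ((σ ^ r : ℂ ≃+* ℂ) : ℂ →+* ℂ).comp τ = τ) →
    ∀ τ : E₀ →+* ℂ, (σ : ℂ →+* ℂ).comp τ = τ

/-- The largest number of subsets of a set with `n` elements whose cardinalities are in one residue
class modulo `r`. -/
def maxClass (r n : ℕ) : ℕ :=
  (Finset.range r).sup fun c => ∑ a ∈ (Finset.range (n + 1)).filter (fun a => a % r = c), n.choose a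

end Pool.Agent.H977R3.CM
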