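import Mathlib
import Pool.Agent.H977R3.CM.TowerDefs
import Pool.Agent.H977R3.CM.Aut

/-!
# The Galois closure and permutations of order `r`
-/

namespace Pool.Agent.H977R3.CM

open NumberField Module

theorem noOrder_of_closure (E₀ : Type*) [Field E₀] [NumberField E₀] (r : ℕ) (hr : r.Prime)
    (h : ¬ r ∣ finrank ℚ (IntermediateField.normalClosure ℚ E₀ ℂ)) : NoOrder E₀ r := by
  intro σ hσ τ
  let L := IntermediateField.normalClosure ℚ E₀ ℂ
  have _ : IsNormalClosure ℚ E₀ L := Algebra.IsAlgebraic.isNormalClosure_normalClosure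
    (fun x => IsAlgClosed.splits _)
  have hnorm : Normal ℚ L := IsNormalClosure.normal (K := E₀)
  have hfin : FiniteDimensional ℚ L := inferInstance
  have _ : NumberField L := NumberField.mk
  have _ : IsGalois ℚ L := ⟨⟩
  let j : L →+* ℂ := algebraMap L ℂ
  obtain ⟨g, hg⟩ := exists_gal j σ
  have hmem : ∀ (τ : E₀ →+* ℂ) (x : E₀), τ x ∈ L := by
    intro τ x
    exact AlgHom.fieldRange_le_normalClosure (RingHom.equivRatAlgHom E₀ ℂ τ) ⟨x, rfl⟩
  have hpow : ∀ (s : ℕ) (x : L), (σ ^ s) (j x) = j ((g ^ s) x) := by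
    intro s
    induction s with
    | zero =>
      intro x
      rw [pow_zero, pow_zero]
      rfl
    | succ s ih =>
      intro x
      rw [pow_succ, pow_succ, RingAut.mul_apply, AlgEquiv.mul_apply, hg, ih]
  -- the elements fixed by `σ ^ r`
  let σr : ℂ ≃ₐ[ℚ] ℂ := AlgEquiv.ofRingEquiv (f := σ ^ r) (fun x => by
    rw [eq_ratCast, map_ratCast])
  have hle : L ≤ IntermediateField.fixedField (Subgroup.zpowers σr) := by
    refine iSup_le fun f => ?_
    rintro _ ⟨x, rfl⟩
    rw [IntermediateField.mem_fixedField_iff]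
    have h1 : σr (f x) = f x := RingHom.congr_fun (hσ (f : E₀ →+* ℂ)) x
    intro ρ hρ
    obtain ⟨m, rfl⟩ := Subgroup.mem_zpowers_iff.1 hρ
    have h2 : σr ∈ MulAction.stabilizer (ℂ ≃ₐ[ℚ] ℂ) (f x) := h1
    exact Subgroup.zpow_mem _ h2 m
  have hgr : g ^ r = 1 := by
    ext x
    have h1 : σr (j x) = j x := by
      have h2 := hle x.2
      rw [IntermediateField.mem_fixedField_iff] at h2
      exact h2 σr (Subgroup.mem_zpowers σr)
    have h3 : j ((g ^ r) x) = j x := by
      rw [← hpow]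
      exact h1
    exact congrArg _ (j.injective h3)
  have hg1 : g = 1 := by
    have h1 : orderOf g ∣ r := orderOf_dvd_of_pow_eq_one hgr
    have h2 : orderOf g ∣ finrank ℚ L := by
      rw [← IsGalois.card_aut_eq_finrank]
      exact orderOf_dvd_natCard g
    rcases (Nat.dvd_prime hr).1 h1 with h3 | h3
    · exact orderOf_eq_one_iff.1 h3
    · rw [h3] at h2
      exact absurd h2 h
  ext x
  have h1 := hg ⟨τ x, hmem τ x⟩
  rw [hg1] at h1
  exact h1

end Pool.Agent.H977R3.CM
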