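import Mathlib

/-!
# Independence of relations

Finite sets `Y i` with an involution and an action of a finite group `G`, and antisymmetric
functions `e i` on `Y i`.  If for `i ≠ i'` and all `x ∈ Y i`, `y ∈ Y i'` some element of `G` fixes
`x` and maps `y` to its conjugate, a relation between the translates of the family `e` is a relation
for each of the members.
-/

namespace Pool.Agent.H977R3.CM

open MulAction

theorem indep {ι : Type*} [Fintype ι] {G : Type*} [Group G] [Fintype G]
    (Y : ι → Type*) [∀ i, Fintype (Y i)] [∀ i, MulAction G (Y i)]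
    (inv : ∀ i, Y i → Y i) (e : ∀ i, Y i → ℤ)
    (he : ∀ i x, e i (inv i x) = -e i x) (hG : ∀ (g : G) i x, g • inv i x = inv i (g • x))
    (h : ∀ i i', i ≠ i' → ∀ (x : Y i) (y : Y i'), ∃ g : G, g • x = x ∧ g • y = inv i' y)
    (c : ∀ i, Y i → ℤ) (hrel : ∀ g : G, ∑ i, ∑ x, c i x * e i (g • x) = 0) (i : ι) (g : G) :
    ∑ x, c i x * e i (g • x) = 0 := by
  classical
  let T : ι → G → ℤ := fun i g => ∑ x, c i x * e i (g • x)
  have hcross : ∀ i i', i ≠ i' → ∑ g, T i g * T i' g = 0 := by
    intro i i' hii
    have h0 : ∀ x y, ∑ g : G, e i (g • x) * e i' (g • y) = 0 := by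
      intro x y
      obtain ⟨s, hs1, hs2⟩ := h i i' hii x y
      have h1 : ∑ g : G, e i ((g * s) • x) * e i' ((g * s) • y) =
          ∑ g : G, e i (g • x) * e i' (g • y) :=
        Fintype.sum_equiv (Equiv.mulRight s) _ _ (fun g => rfl)
      have h2 : ∑ g : G, e i ((g * s) • x) * e i' ((g * s) • y) =
          - ∑ g : G, e i (g • x) * e i' (g • y) := by
        rw [← Finset.sum_neg_distrib]
        refine Finset.sum_congr rfl fun g _ => ?_
        rw [mul_smul, mul_smul, hs1, hs2, hG, he, mul_neg]
      omega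
    calc ∑ g, T i g * T i' g
        = ∑ g, ∑ x, ∑ y, (c i x * c i' y) * (e i (g • x) * e i' (g • y)) := by
          refine Finset.sum_congr rfl fun g _ => ?_
          rw [Finset.sum_mul_sum]
          refine Finset.sum_congr rfl fun x _ => Finset.sum_congr rfl fun y _ => ?_
          ring
      _ = ∑ x, ∑ y, (c i x * c i' y) * ∑ g : G, (e i (g • x) * e i' (g • y)) := by
          rw [Finset.sum_comm]
          refine Finset.sum_congr rfl fun x _ => ?_
          rw [Finset.sum_comm]
          refine Finset.sum_congr rfl fun y _ => ?_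
          rw [Finset.mul_sum]
      _ = 0 := by
          refine Finset.sum_eq_zero fun x _ => Finset.sum_eq_zero fun y _ => ?_
          rw [h0, mul_zero]
  have hsq : ∑ i, ∑ g, T i g * T i g = 0 := by
    have h1 : ∑ g : G, (∑ i, T i g) * (∑ i, T i g) = 0 := by
      refine Finset.sum_eq_zero fun g _ => ?_
      have : ∑ i, T i g = 0 := hrel g
      rw [this, zero_mul]
    have h2 : ∑ g : G, (∑ i, T i g) * (∑ i, T i g) = ∑ i, ∑ i', ∑ g, T i g * T i' g := by
      calc ∑ g : G, (∑ i, T i g) * (∑ i, T i g)
          = ∑ g : G, ∑ i, ∑ i', T i g * T i' g :=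
            Finset.sum_congr rfl fun g _ => Finset.sum_mul_sum _ _ _ _
        _ = _ := by
          rw [Finset.sum_comm]
          exact Finset.sum_congr rfl fun i _ => Finset.sum_comm
    rw [h2] at h1
    rw [← h1]
    refine Finset.sum_congr rfl fun i _ => ?_
    rw [Finset.sum_eq_single i]
    · intro i' _ hne
      exact hcross i i' (Ne.symm hne)
    · intro hi
      exact absurd (Finset.mem_univ i) hi
  have h3 := (Finset.sum_eq_zero_iff_of_nonneg (fun i _ =>
    Finset.sum_nonneg fun g _ => mul_self_nonneg (T i g))).1 hsq i (Finset.mem_univ i)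
  have h4 := (Finset.sum_eq_zero_iff_of_nonneg (fun g _ => mul_self_nonneg (T i g))).1 h3 g
    (Finset.mem_univ g)
  exact mul_self_eq_zero.1 h4

end Pool.Agent.H977R3.CM
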