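import Mathlib
import Pool.Agent.H204R3.CM.Fixed

/-!
# Relations and orbits of prime power length

A finite group `G` acts on a set `R` with `2 r ^ k` elements, `r` an odd prime, and a fixed point
free involution.  If a subgroup of `G` has an orbit `O` with `r ^ k` elements, an antisymmetric
integral vector `u` whose sum over `O` is prime to `r` satisfies no relation between its translates.
-/

namespace Pool.Agent.H977R3.CM

open MulAction Pool.Agent.H925R2 Pool.Agent.H204R3.CM

variable {R : Type*} {inv : R → R} {G : Type*} [Group G] [MulAction G R]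

/-- A finite set preserved by a fixed point free involution has an even number of elements. -/
theorem even_of_invol (hinv : ∀ x, inv (inv x) = x) (hne : ∀ x, inv x ≠ x) (O : Finset R)
    (hO : ∀ x ∈ O, inv x ∈ O) : Even O.card := by
  have h : ∑ x ∈ O, (1 : ZMod 2) = 0 := by
    refine Finset.sum_involution (fun x _ => inv x) ?_ ?_ ?_ ?_
    · intro x _
      decide
    · intro x _ _
      exact hne x
    · intro x hx
      exact hO x hx
    · intro x _
      exact hinv x
  rw [Finset.sum_const, nsmul_eq_mul, mul_one, ZMod.natCast_eq_zero_iff] at h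
  exact even_iff_two_dvd.2 h

/-- An orbit of odd length contains no pair of conjugate elements. -/
theorem not_mem_orbit (hinv : ∀ x, inv (inv x) = x) (hne : ∀ x, inv x ≠ x)
    (hG : ∀ (g : G) (x : R), g • inv x = inv (g • x)) (P : Subgroup G) (x₀ : R)
    (hfin : (orbit P x₀).Finite) (hodd : Odd (orbit P x₀).ncard) (x : R) (hx : x ∈ orbit P x₀) :
    inv x ∉ orbit P x₀ := by
  intro h
  rw [← Nat.not_even_iff_odd] at hodd
  apply hodd
  rw [Set.ncard_eq_toFinset_card _ hfin]
  refine even_of_invol hinv hne _ ?_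
  intro y hy
  rw [Set.Finite.mem_toFinset] at hy ⊢
  obtain ⟨p, rfl⟩ := (orbit_eq_iff.2 hx) ▸ hy
  change inv ((p : G) • x) ∈ orbit P x₀
  rw [← hG]
  rw [← orbit_eq_iff.2 h]
  exact ⟨p, rfl⟩

variable [Fintype R]

/-- If `R` has `2 r ^ k` elements, an orbit with `r ^ k` elements is a half system. -/
theorem isHalf_orbit [DecidableEq R] (hinv : ∀ x, inv (inv x) = x) (hne : ∀ x, inv x ≠ x)
    (hG : ∀ (g : G) (x : R), g • inv x = inv (g • x)) (P : Subgroup G) (x₀ : R) (n : ℕ)
    (hodd : Odd n) (hcard : (orbit P x₀).ncard = n) (hR : Fintype.card R = 2 * n) (O : Finset R)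
    (hO : ∀ x, x ∈ O ↔ x ∈ orbit P x₀) : IsHalf inv O := by
  have hno : ∀ x, x ∈ O → inv x ∉ O := by
    intro x hx
    rw [hO] at hx ⊢
    exact not_mem_orbit hinv hne hG P x₀ (Set.toFinite _) (by rw [hcard]; exact hodd) x hx
  have hOc : O.card = n := by
    rw [← hcard, ← Set.ncard_coe_finset]
    congr 1
    ext x
    exact hO x
  have himg : (O.image inv).card = n := by
    rw [Finset.card_image_of_injective _ (fun a b h => by rw [← hinv a, h, hinv]), hOc]
  have hdisj : Disjoint O (O.image inv) := by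
    rw [Finset.disjoint_left]
    intro x hx hx'
    obtain ⟨y, hy, rfl⟩ := Finset.mem_image.1 hx'
    exact hno y hy hx
  have hun : O ∪ O.image inv = Finset.univ := by
    rw [← Finset.card_eq_iff_eq_univ, Finset.card_union_of_disjoint hdisj, hOc, himg, hR]
    ring
  intro x
  refine ⟨hno x, fun h => ?_⟩
  have hx : inv x ∈ O ∪ O.image inv := by
    rw [hun]
    exact Finset.mem_univ _
  rcases Finset.mem_union.1 hx with h' | h'
  · exact absurd h' h
  · obtain ⟨y, hy, hyx⟩ := Finset.mem_image.1 h'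
    have : y = x := by rw [← hinv y, hyx, hinv]
    rwa [this] at hy

variable [Finite G]

/-- No relations, if the sum of the vector over an orbit of `r ^ k` elements is prime to `r`. -/
theorem core_orbit (hinv : ∀ x, inv (inv x) = x) (hne : ∀ x, inv x ≠ x)
    (hG : ∀ (g : G) (x : R), g • inv x = inv (g • x)) (r k : ℕ) [Fact r.Prime] (hr : r ≠ 2)
    (hR : Fintype.card R = 2 * r ^ k) (P : Subgroup G) (x₀ : R)
    (hcard : (orbit P x₀).ncard = r ^ k) (O : Finset R) (hO : ∀ x, x ∈ O ↔ x ∈ orbit P x₀)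
    (u c : R → ℤ) (hu : ∀ x, u (inv x) = -u x) (hc : ∀ x, c (inv x) = -c x)
    (hndvd : ¬ (r : ℤ) ∣ ∑ x ∈ O, u x)
    (hrel : ∀ g : G, ∑ x, c x * u (g • x) = 0) : ∀ x, c x = 0 := by
  classical
  by_contra hcon
  push Not at hcon
  have hodd : Odd (r ^ k) := ((Fact.out : r.Prime).odd_of_ne_two hr).pow
  have hhalf : IsHalf inv O := isHalf_orbit hinv hne hG P x₀ (r ^ k) hodd hcard hR O hO
  -- a Sylow subgroup of `P` is transitive on the orbit
  obtain ⟨Q⟩ : Nonempty (Sylow r P) := inferInstance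
  have htr : ∀ x ∈ O, ∀ y ∈ O, ∃ q : Q, ((q : P) : G) • x = y := by
    intro x hx y hy
    rw [hO] at hx hy
    have hB : Nat.card (orbit P x₀) = r ^ k := hcard
    obtain ⟨q, hq⟩ := sylow_transitive (G := P) (B := orbit P x₀) r k hB Q ⟨x, hx⟩ ⟨y, hy⟩
    exact ⟨q, congrArg Subtype.val hq⟩
  have hQ : IsPGroup r ((Q : Subgroup P).map P.subtype) := Q.isPGroup'.map _
  obtain ⟨S, hS⟩ := hQ.exists_le_sylow
  obtain ⟨f, ⟨y₀, hy₀⟩, hf1, hf2, hf3⟩ := exists_fixed (inv := inv) hinv hG r S
    {v | ∃ h : G, ∀ x, v x = u (h • x)}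
    (by
      rintro v ⟨h, hv⟩ g
      exact ⟨h * g, fun x => (hv (g • x)).trans (by rw [mul_smul])⟩)
    (by
      rintro v ⟨h, hv⟩ x
      rw [hv, hv, hG, hu])
    c hc
    (by
      rintro v ⟨h, hv⟩
      rw [← hrel h]
      exact Finset.sum_congr rfl fun x _ => by rw [hv x])
    hcon
  obtain ⟨x₁, hx₁, hfx₁⟩ : ∃ x₁ ∈ O, f x₁ ≠ 0 := by
    by_cases h : y₀ ∈ O
    · exact ⟨y₀, h, hy₀⟩
    · rw [hhalf y₀, not_not] at h
      refine ⟨inv y₀, h, ?_⟩
      rw [hf1, neg_ne_zero]
      exact hy₀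
  have hconst : ∀ x ∈ O, f x = f x₁ := by
    intro x hx
    obtain ⟨q, hq⟩ := htr x₁ hx₁ x hx
    have hqS : ((q : P) : G) ∈ (S : Subgroup G) := hS ⟨(q : P), q.2, rfl⟩
    have h := hf2 ⟨((q : P) : G), hqS⟩ x₁
    rw [← hq]
    exact h
  have h1 := hf3 u ⟨1, fun x => by rw [one_smul]⟩ O hhalf
  rw [Finset.sum_congr rfl (fun x hx => by rw [hconst x hx]), ← Finset.mul_sum] at h1
  rcases mul_eq_zero.1 h1 with h | h
  · exact hfx₁ h
  · apply hndvd
    rw [← ZMod.intCast_zmod_eq_zero_iff_dvd]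
    push_cast
    exact h

/-- The Sylow `r`-subgroups have orbits with `r ^ k` elements. -/
theorem exists_orbit [DecidableEq R] [IsPretransitive G R] (hinv : ∀ x, inv (inv x) = x)
    (hne : ∀ x, inv x ≠ x) (hG : ∀ (g : G) (x : R), g • inv x = inv (g • x)) (r k : ℕ)
    [Fact r.Prime] (hr : r ≠ 2) (hR : Fintype.card R = 2 * r ^ k) (x₀ : R) :
    ∃ P : Subgroup G, (orbit P x₀).ncard = r ^ k := by
  classical
  obtain ⟨S⟩ : Nonempty (Sylow r G) := inferInstance
  refine ⟨(S : Subgroup G), ?_⟩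
  have hodd : Odd (orbit (S : Subgroup G) x₀).ncard := by
    obtain ⟨n, hn⟩ := S.isPGroup'.card_orbit (α := R) x₀
    have h1 : (orbit (S : Subgroup G) x₀).ncard = r ^ n := hn
    rw [h1]
    exact ((Fact.out : r.Prime).odd_of_ne_two hr).pow
  have hhalf : IsHalf inv (orbit (S : Subgroup G) x₀).toFinset := by
    intro x
    rw [Set.mem_toFinset, Set.mem_toFinset]
    refine ⟨not_mem_orbit hinv hne hG _ x₀ (Set.toFinite _) hodd x, fun h => ?_⟩
    obtain ⟨s, hs | hs⟩ := sylow_pairs hinv hne hG r k hR S x₀ x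
    · exact ⟨s, hs⟩
    · exact absurd ⟨s, hs⟩ h
  have h2 := hhalf.card hinv
  rw [Set.ncard_eq_toFinset_card']
  omega

end Pool.Agent.H977R3.CM
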