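import Mathlib
import Pool.Agent.H977R3.CM.Defs
import Pool.Agent.H977R3.CM.Aut
import Pool.Agent.H977R3.CM.Orbit
import Pool.Agent.H204R3.CM.Disc
import Pool.Agent.H204R3.CM.Main

/-!
# Orbits of embeddings over the complex numbers and over a Galois number field
-/

namespace Pool.Agent.H977R3.CM

open NumberField MulAction Pool.Agent.H204R3.CM Pool.Agent.H925R2

variable {E L : Type*} [Field E] [Field L] [NumberField L] (j : L →+* ℂ)

/-- The image of a group of automorphisms of the complex numbers in the Galois group. -/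
def img (H : Subgroup (ℂ ≃+* ℂ)) : Subgroup (L ≃ₐ[ℚ] L) where
  carrier := {g | ∃ σ ∈ H, ∀ x, σ (j x) = j (g x)}
  mul_mem' := by
    rintro a b ⟨σ, hσ, h⟩ ⟨τ, hτ, h'⟩
    refine ⟨σ * τ, H.mul_mem hσ hτ, fun x => ?_⟩
    rw [RingAut.mul_apply, h', h, AlgEquiv.mul_apply]
  one_mem' := ⟨1, H.one_mem, fun x => rfl⟩
  inv_mem' := by
    rintro a ⟨σ, hσ, h⟩
    refine ⟨σ⁻¹, H.inv_mem hσ, fun x => ?_⟩
    apply σ.injective
    rw [h, ← AlgEquiv.mul_apply, mul_inv_cancel, AlgEquiv.one_apply]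
    exact σ.apply_symm_apply _

theorem mem_img (H : Subgroup (ℂ ≃+* ℂ)) (g : L ≃ₐ[ℚ] L) :
    g ∈ img j H ↔ ∃ σ ∈ H, ∀ x, σ (j x) = j (g x) := Iff.rfl

/-- The automorphisms of the complex numbers which restrict to elements of `P`. -/
def pre (P : Subgroup (L ≃ₐ[ℚ] L)) : Subgroup (ℂ ≃+* ℂ) where
  carrier := {σ | ∃ g ∈ P, ∀ x, σ (j x) = j (g x)}
  mul_mem' := by
    rintro σ τ ⟨a, ha, h⟩ ⟨b, hb, h'⟩
    refine ⟨a * b, P.mul_mem ha hb, fun x => ?_⟩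
    rw [RingAut.mul_apply, h', h, AlgEquiv.mul_apply]
  one_mem' := ⟨1, P.one_mem, fun x => rfl⟩
  inv_mem' := by
    rintro σ ⟨a, ha, h⟩
    refine ⟨a⁻¹, P.inv_mem ha, fun x => ?_⟩
    apply σ.injective
    rw [h, ← AlgEquiv.mul_apply, mul_inv_cancel, AlgEquiv.one_apply]
    exact σ.apply_symm_apply _

theorem mem_pre (P : Subgroup (L ≃ₐ[ℚ] L)) (σ : ℂ ≃+* ℂ) :
    σ ∈ pre j P ↔ ∃ g ∈ P, ∀ x, σ (j x) = j (g x) := Iff.rfl

theorem comp_injective : Function.Injective (fun φ : E →+* L => j.comp φ) := by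
  intro φ φ' h
  ext x
  exact j.injective (RingHom.congr_fun h x)

theorem orb_eq [IsGalois ℚ L] (H : Subgroup (ℂ ≃+* ℂ)) (φ : E →+* L) :
    orb H (j.comp φ) = (fun ψ : E →+* L => j.comp ψ) '' orbit (img j H) φ := by
  ext ψ
  constructor
  · rintro ⟨σ, hσ, rfl⟩
    obtain ⟨g, hg⟩ := exists_gal j σ
    refine ⟨g • φ, ⟨⟨g, σ, hσ, hg⟩, rfl⟩, ?_⟩
    ext x
    change j (g (φ x)) = σ (j (φ x))
    rw [hg]
  · rintro ⟨_, ⟨⟨g, σ, hσ, hg⟩, rfl⟩, rfl⟩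
    refine ⟨σ, hσ, ?_⟩
    ext x
    change j (g (φ x)) = σ (j (φ x))
    rw [hg]

theorem orb_pre (P : Subgroup (L ≃ₐ[ℚ] L)) (φ : E →+* L) :
    orb (pre j P) (j.comp φ) = (fun ψ : E →+* L => j.comp ψ) '' orbit P φ := by
  ext ψ
  constructor
  · rintro ⟨σ, ⟨g, hgP, hg⟩, rfl⟩
    refine ⟨g • φ, ⟨⟨g, hgP⟩, rfl⟩, ?_⟩
    ext x
    change j (g (φ x)) = σ (j (φ x))
    rw [hg]
  · rintro ⟨_, ⟨⟨g, hgP⟩, rfl⟩, rfl⟩
    obtain ⟨σ, hσ⟩ := exists_aut j (g : L ≃+* L)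
    refine ⟨σ, ⟨g, hgP, hσ⟩, ?_⟩
    ext x
    change j (g (φ x)) = σ (j (φ x))
    rw [hσ]
    rfl

variable [NumberField E]

/-- The sum of the signs of a CM type over a set of embeddings. -/
theorem sum_sign (Φ : Set (E →+* ℂ)) (X : Set (E →+* L)) (O : Finset (E →+* L))
    (hO : ∀ x, x ∈ O ↔ x ∈ X) [DecidablePred (fun φ : E →+* L => j.comp φ ∈ Φ)] :
    ∑ x ∈ O, (if j.comp x ∈ Φ then (1 : ℤ) else -1) =
      (((fun ψ : E →+* L => j.comp ψ) '' X ∩ Φ).ncard : ℤ) -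
        (((fun ψ : E →+* L => j.comp ψ) '' X \ Φ).ncard : ℤ) := by
  classical
  rw [Finset.sum_ite, Finset.sum_const, Finset.sum_const]
  have h1 : (((fun ψ : E →+* L => j.comp ψ) '' X ∩ Φ).ncard) =
      (O.filter (fun x => j.comp x ∈ Φ)).card := by
    rw [← Set.ncard_coe_finset, ← Set.ncard_image_of_injective _ (comp_injective (E := E) j)]
    congr 1
    ext ψ
    constructor
    · rintro ⟨⟨x, hx, rfl⟩, hψ⟩
      exact ⟨x, by
        rw [Finset.coe_filter]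
        exact ⟨(hO x).2 hx, hψ⟩, rfl⟩
    · rintro ⟨x, hx, rfl⟩
      rw [Finset.coe_filter] at hx
      exact ⟨⟨x, (hO x).1 hx.1, rfl⟩, hx.2⟩
  have h2 : (((fun ψ : E →+* L => j.comp ψ) '' X \ Φ).ncard) =
      (O.filter (fun x => ¬ j.comp x ∈ Φ)).card := by
    rw [← Set.ncard_coe_finset, ← Set.ncard_image_of_injective _ (comp_injective (E := E) j)]
    congr 1
    ext ψ
    constructor
    · rintro ⟨⟨x, hx, rfl⟩, hψ⟩
      exact ⟨x, by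
        rw [Finset.coe_filter]
        exact ⟨(hO x).2 hx, hψ⟩, rfl⟩
    · rintro ⟨x, hx, rfl⟩
      rw [Finset.coe_filter] at hx
      exact ⟨⟨x, (hO x).1 hx.1, rfl⟩, hx.2⟩
  rw [h1, h2, nsmul_eq_mul, nsmul_eq_mul]
  ring

end Pool.Agent.H977R3.CM
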