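import Mathlib
import Pool.Agent.H977R3.CM.Transfer
import Pool.Agent.H977R3.CM.Indep
import Pool.Agent.H204R3.CM.Nondeg

/-!
# Nondegeneracy of the CM types that are not exceptional
-/

namespace Pool.Agent.H977R3.CM

open NumberField Module MulAction Pool.Agent.H204R3.CM Pool.Agent.H925R2

theorem sign_cbar {E L : Type*} [Field E] [NumberField E] [IsCMField E] [Field L]
    {Φ : Set (E →+* ℂ)} (hΦ : IsCMType Φ) (j : L →+* ℂ)
    [DecidablePred (fun φ : E →+* L => j.comp φ ∈ Φ)] (φ : E →+* L) :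
    (if j.comp (cbar φ) ∈ Φ then (1 : ℤ) else -1) = -(if j.comp φ ∈ Φ then (1 : ℤ) else -1) := by
  have h1 := hΦ (j.comp φ)
  rw [← comp_cbar] at h1
  by_cases h2 : j.comp φ ∈ Φ
  · rw [if_pos h2, if_neg (h1.1 h2)]
  · have h3 : j.comp (cbar φ) ∈ Φ := by
      by_contra h4
      exact h2 (h1.2 h4)
    rw [if_pos h3, if_neg h2, neg_neg]

/-- The vector of signs of a CM type that is not exceptional satisfies no relation. -/
theorem single {E L : Type*} [Field E] [NumberField E] [IsCMField E] [Field L] [NumberField L]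
    [IsGalois ℚ L] {Φ : Set (E →+* ℂ)} (hΦ : IsCMType Φ) (j : L →+* ℂ)
    (h : ∀ ψ : E →+* ℂ, ∃ φ : E →+* L, j.comp φ = ψ) (r k : ℕ) (hr : r.Prime) (hr2 : r ≠ 2)
    (hdeg : finrank ℚ E = 2 * r ^ k) (hex : Φ ∉ Exceptional E r k)
    [DecidablePred (fun φ : E →+* L => j.comp φ ∈ Φ)]
    (c : (E →+* L) → ℤ) (hc : ∀ φ, c (cbar φ) = -c φ)
    (hrel : ∀ g : L ≃ₐ[ℚ] L, ∑ φ, c φ * (if j.comp (g • φ) ∈ Φ then (1 : ℤ) else -1) = 0) :
    ∀ φ, c φ = 0 := by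
  classical
  have _ : Fact r.Prime := ⟨hr⟩
  have h1 : ¬ ∀ (H : Subgroup (ℂ ≃+* ℂ)) (φ : E →+* ℂ), (orb H φ).ncard = r ^ k →
      (r : ℤ) ∣ ((orb H φ ∩ Φ).ncard : ℤ) - ((orb H φ \ Φ).ncard : ℤ) :=
    fun h2 => hex ⟨hΦ, h2⟩
  push Not at h1
  obtain ⟨H, φ₀, hcard, hnd⟩ := h1
  obtain ⟨φ, rfl⟩ := h φ₀
  rw [orb_eq] at hcard hnd
  rw [Set.ncard_image_of_injective _ (comp_injective (E := E) j)] at hcard
  rw [← sum_sign j Φ (orbit (img j H) φ) (orbit (img j H) φ).toFinset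
    (fun x => Set.mem_toFinset)] at hnd
  exact core_orbit (inv := cbar) (G := L ≃ₐ[ℚ] L) (fun x => cbar_cbar x) (fun x => cbar_ne x)
    (fun g x => rfl) r k hr2 (by rw [card_emb j h, hdeg]) (img j H) φ hcard _
    (fun x => Set.mem_toFinset) _ c (fun x => sign_cbar hΦ j x) hc hnd hrel

theorem nondeg_of_not_exceptional {ι : Type*} [Fintype ι] {E : ι → Type*} [∀ i, Field (E i)]
    [∀ i, NumberField (E i)] [∀ i, IsCMField (E i)]
    {L : Type*} [Field L] [NumberField L] [IsGalois ℚ L]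
    {Φ : ∀ i, Set (E i →+* ℂ)} (hΦ : ∀ i, IsCMType (Φ i)) (j : L →+* ℂ)
    (h : ∀ i, ∀ ψ : E i →+* ℂ, ∃ φ : E i →+* L, j.comp φ = ψ)
    (r k : ι → ℕ) (hr : ∀ i, (r i).Prime) (hr2 : ∀ i, r i ≠ 2)
    (hdeg : ∀ i, finrank ℚ (E i) = 2 * r i ^ k i)
    (hind : PairwiseIndep E)
    (hex : ∀ i, Φ i ∉ Exceptional (E i) (r i) (k i)) :
    Nondeg Φ j := by
  classical
  intro c hc hrel i
  refine single (hΦ i) j (h i) (r i) (k i) (hr i) (hr2 i) (hdeg i) (hex i) (c i) (hc i) ?_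
  intro g
  refine indep (G := L ≃ₐ[ℚ] L) (fun i => E i →+* L) (fun i => cbar)
    (fun i φ => if j.comp φ ∈ Φ i then (1 : ℤ) else -1) (fun i φ => sign_cbar (hΦ i) j φ)
    (fun g i φ => rfl) ?_ c (fun g => ?_) i g
  · intro i i' hii φ ψ
    obtain ⟨σ, hσ1, hσ2⟩ := hind i i' hii (j.comp φ) (j.comp ψ)
    obtain ⟨g, hg⟩ := exists_gal j σ
    refine ⟨g, ?_, ?_⟩
    · ext x
      apply j.injective
      rw [emb_smul_apply, ← hg]
      exact hσ1 x
    · ext x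
      apply j.injective
      rw [emb_smul_apply, ← hg]
      have h1 := RingHom.congr_fun (comp_cbar j ψ) x
      rw [ComplexEmbedding.conjugate_coe_eq] at h1
      exact (hσ2 x).trans h1.symm
  · exact hrel g

end Pool.Agent.H977R3.CM
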