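import Mathlib
import Pool.Agent.H977R3.CM.Orbit

/-!
# Relations and towers of relative degree a prime power

A finite group `G` acts transitively on `R` and `R₀`, compatibly with `π : R → R₀`, whose fibres
have `r ^ k` elements.  If no element of `G` induces a permutation of order `r` on `R₀`, a relation
between the translates of an antisymmetric vector on `R` gives a relation modulo `r` between the
translates of its sums over the fibres of `π`.
-/

namespace Pool.Agent.H977R3.CM

open MulAction Pool.Agent.H925R2 Pool.Agent.H204R3.CM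

variable {R R₀ : Type*} {G : Type*} [Group G] [MulAction G R] [MulAction G R₀]

/-- An `r`-subgroup acts trivially, if no element induces a permutation of order `r`. -/
theorem trivial_of_noOrder (r : ℕ) (hnr : ∀ g : G, (∀ y : R₀, (g ^ r) • y = y) → ∀ y : R₀, g • y = y)
    (P : Subgroup G) (hP : IsPGroup r P) (p : G) (hp : p ∈ P) (y : R₀) : p • y = y := by
  obtain ⟨s, hs⟩ := hP ⟨p, hp⟩
  have hs' : p ^ r ^ s = 1 := congrArg Subtype.val hs
  have key : ∀ s : ℕ, ∀ g : G, g ^ r ^ s = 1 → ∀ y : R₀, g • y = y := by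
    intro s
    induction s with
    | zero =>
      intro g hg y
      rw [pow_zero, pow_one] at hg
      rw [hg, one_smul]
    | succ s ih =>
      intro g hg
      refine hnr g (ih (g ^ r) ?_)
      rw [← pow_mul, ← hg, pow_succ']
  exact key s p hs' y

variable [Fintype R] [Fintype R₀] [DecidableEq R₀]

/-- The fibres of an equivariant map between transitive sets have the same cardinality. -/
theorem card_fibre [IsPretransitive G R₀] (π : R → R₀) (hπ : ∀ (g : G) x, π (g • x) = g • π x)
    (n : ℕ) (hcard : Fintype.card R = Fintype.card R₀ * n) (y : R₀) :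
    (Finset.univ.filter (fun x => π x = y)).card = n := by
  have hsame : ∀ y' : R₀, (Finset.univ.filter (fun x => π x = y')).card =
      (Finset.univ.filter (fun x => π x = y)).card := by
    intro y'
    obtain ⟨g, hg⟩ := exists_smul_eq G y' y
    refine Finset.card_bij (fun x _ => g • x) ?_ ?_ ?_
    · intro x hx
      rw [Finset.mem_filter] at hx ⊢
      exact ⟨Finset.mem_univ _, by rw [hπ, hx.2, hg]⟩
    · intro a _ b _ h
      exact smul_left_cancel g h
    · intro b hb
      rw [Finset.mem_filter] at hb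
      refine ⟨g⁻¹ • b, ?_, smul_inv_smul g b⟩
      rw [Finset.mem_filter]
      exact ⟨Finset.mem_univ _, by rw [hπ, hb.2, ← hg, inv_smul_smul]⟩
  have h1 : Fintype.card R = ∑ y' : R₀, (Finset.univ.filter (fun x => π x = y')).card := by
    rw [← Finset.card_univ]
    exact Finset.card_eq_sum_card_fiberwise (fun x _ => Finset.mem_univ _)
  rw [Finset.sum_congr rfl (fun y' _ => hsame y'), Finset.sum_const, Finset.card_univ,
    smul_eq_mul, hcard] at h1
  have hpos : 0 < Fintype.card R₀ := Fintype.card_pos_iff.2 ⟨y⟩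
  exact (Nat.eq_of_mul_eq_mul_left hpos h1).symm

variable [Finite G]

/-- A Sylow subgroup which acts trivially on `R₀` is transitive on the fibres. -/
theorem fibre_transitive [IsPretransitive G R] [IsPretransitive G R₀] (π : R → R₀)
    (hπ : ∀ (g : G) x, π (g • x) = g • π x) (r k : ℕ) [Fact r.Prime]
    (hcard : Fintype.card R = Fintype.card R₀ * r ^ k) (S : Sylow r G)
    (htriv : ∀ s : G, s ∈ S → ∀ y : R₀, s • y = y) (x x' : R) (hxx : π x = π x') :
    ∃ s : G, s ∈ S ∧ s • x = x' := by
  let K : Subgroup G := stabilizer G (π x)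
  have hSK : (S : Subgroup G) ≤ K := fun s hs => htriv s hs _
  let B : Type _ := {z : R // π z = π x}
  let _ : MulAction K B :=
    { smul := fun g z => ⟨(g : G) • z.1, by
        rw [hπ, z.2]
        exact g.2⟩
      one_smul := fun z => Subtype.ext (one_smul G z.1)
      mul_smul := fun a b z => Subtype.ext (mul_smul (a : G) (b : G) z.1) }
  have hBt : IsPretransitive K B := by
    refine ⟨fun a b => ?_⟩
    obtain ⟨g, hg⟩ := exists_smul_eq G a.1 b.1
    refine ⟨⟨g, ?_⟩, Subtype.ext hg⟩
    rw [mem_stabilizer_iff]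
    have h1 : π (g • a.1) = π b.1 := by rw [hg]
    rw [hπ, a.2, b.2] at h1
    exact h1
  have hBc : Nat.card B = r ^ k := by
    rw [Nat.card_eq_fintype_card, Fintype.card_subtype]
    exact card_fibre π hπ (r ^ k) hcard (π x)
  obtain ⟨s, hs⟩ := sylow_transitive (G := K) (B := B) r k hBc (S.subtype hSK)
    ⟨x, rfl⟩ ⟨x', hxx.symm⟩
  refine ⟨((s : K) : G), ?_, congrArg Subtype.val hs⟩
  have h2 := s.2
  exact h2

/-- A relation between the translates of `u` gives a relation modulo `r` on `R₀`. -/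
theorem core_tower [DecidableEq R] [IsPretransitive G R] [IsPretransitive G R₀] {inv : R → R}
    {inv₀ : R₀ → R₀} (hinv : ∀ x, inv (inv x) = x) (hne : ∀ x, inv x ≠ x)
    (hG : ∀ (g : G) (x : R), g • inv x = inv (g • x)) (π : R → R₀)
    (hπ : ∀ (g : G) x, π (g • x) = g • π x) (hπi : ∀ x, π (inv x) = inv₀ (π x))
    (r k : ℕ) [Fact r.Prime] (hcard : Fintype.card R = Fintype.card R₀ * r ^ k)
    (hnr : ∀ g : G, (∀ y : R₀, (g ^ r) • y = y) → ∀ y : R₀, g • y = y)
    (u c : R → ℤ) (hu : ∀ x, u (inv x) = -u x) (hc : ∀ x, c (inv x) = -c x)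
    (hrel : ∀ g : G, ∑ x, c x * u (g • x) = 0) (hc0 : ∃ x, c x ≠ 0) :
    ∃ b : R₀ → ZMod r, (∃ y, b y ≠ 0) ∧ (∀ y, b (inv₀ y) = -b y) ∧
      ∀ g : G, ∑ x, b (π x) * ((u (g • x) : ℤ) : ZMod r) = 0 := by
  classical
  obtain ⟨S⟩ : Nonempty (Sylow r G) := inferInstance
  have htriv : ∀ s : G, s ∈ S → ∀ y : R₀, s • y = y := fun s hs y =>
    trivial_of_noOrder r hnr (S : Subgroup G) S.isPGroup' s hs y
  obtain ⟨f, ⟨y₀, hy₀⟩, hf1, hf2, hf3⟩ := exists_fixed (inv := inv) hinv hG r S
    {v | ∃ h : G, ∀ x, v x = u (h • x)}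
    (by
      rintro v ⟨h, hv⟩ g
      exact ⟨h * g, fun x => (hv (g • x)).trans (by rw [mul_smul])⟩)
    (by
      rintro v ⟨h, hv⟩ x
      rw [hv, hv, hG, hu])
    c hc
    (by
      rintro v ⟨h, hv⟩
      rw [← hrel h]
      exact Finset.sum_congr rfl fun x _ => by rw [hv x])
    hc0
  have hconst : ∀ x x', π x = π x' → f x = f x' := by
    intro x x' hxx
    obtain ⟨s, hs, rfl⟩ := fibre_transitive π hπ r k hcard S htriv x x' hxx
    exact (hf2 ⟨s, hs⟩ x).symm
  have hsurj : ∀ y, ∃ x, π x = y := by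
    intro y
    have h1 := card_fibre (G := G) π hπ (r ^ k) hcard y
    have h2 : 0 < (Finset.univ.filter (fun x => π x = y)).card := by
      rw [h1]
      exact pow_pos (Fact.out : r.Prime).pos k
    obtain ⟨x, hx⟩ := Finset.card_pos.1 h2
    exact ⟨x, (Finset.mem_filter.1 hx).2⟩
  choose w hw using hsurj
  have hfb : ∀ x, f x = f (w (π x)) := fun x => hconst _ _ (hw (π x)).symm
  refine ⟨fun y => f (w y), ⟨π y₀, fun h => hy₀ ((hfb y₀).trans h)⟩, ?_, ?_⟩
  · intro y
    rw [← hf1]
    apply hconst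
    rw [hπi, hw, hw]
  · intro g
    obtain ⟨Φ, hΦ⟩ := exists_isHalf hinv hne
    have h1 := hf3 (fun x => u (g • x)) ⟨g, fun x => rfl⟩ Φ hΦ
    have h2 := hΦ.sum_symm hinv (fun x => f x * ((u (g • x) : ℤ) : ZMod r)) (fun x => by
      rw [hf1, hG, hu]
      push_cast
      ring)
    rw [h1, add_zero] at h2
    rw [← h2]
    exact Finset.sum_congr rfl fun x _ => congrArg (· * _) (hfb x).symm

end Pool.Agent.H977R3.CM
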