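import Mathlib
import Pool.Agent.H977R3.CM.TowerDefs
import Pool.Agent.H977R3.CM.TowerCore
import Pool.Agent.H977R3.CM.Prime

/-!
# Nondegeneracy of the CM types that are not exceptional, for towers
-/

namespace Pool.Agent.H977R3.CM

open NumberField Module MulAction Pool.Agent.H204R3.CM Pool.Agent.H925R2

section

variable {E₀ E L : Type*} [Field E₀] [NumberField E₀] [IsCMField E₀] [Field E] [NumberField E]
  [IsCMField E] [Algebra E₀ E] [Field L] [NumberField L]

/-- Every complex embedding of a subfield extends. -/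
theorem exists_extension (τ : E₀ →+* ℂ) : ∃ φ : E →+* ℂ, φ.comp (algebraMap E₀ E) = τ := by
  let _ : Algebra E₀ ℂ := τ.toAlgebra
  have _ : Algebra.IsAlgebraic E₀ E := by
    have _ : IsScalarTower ℚ E₀ E := inferInstance
    exact Algebra.IsAlgebraic.tower_top (K := ℚ) E₀
  let φ : E →ₐ[E₀] ℂ := IsAlgClosed.lift
  refine ⟨φ, ?_⟩
  ext x
  exact φ.commutes x

/-- Conjugation of embeddings is compatible with restriction to a CM subfield. -/
theorem cbar_restrict (φ : E →+* L) (j : L →+* ℂ) :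
    (cbar φ).comp (algebraMap E₀ E) = cbar (φ.comp (algebraMap E₀ E)) := by
  ext x
  apply j.injective
  have h1 := RingHom.congr_fun (comp_cbar j φ) (algebraMap E₀ E x)
  have h2 := RingHom.congr_fun (comp_cbar j (φ.comp (algebraMap E₀ E))) x
  rw [ComplexEmbedding.conjugate_coe_eq] at h1 h2
  exact h1.trans h2.symm

end

section

variable {E₀ E L : Type*} [Field E₀] [NumberField E₀] [IsCMField E₀] [Field E] [NumberField E]
  [IsCMField E] [Algebra E₀ E] [Field L] [NumberField L] [IsGalois ℚ L]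

/-- The permutations of the embeddings of `E₀` into `L` have no order `r`. -/
theorem noOrder_gal (j : L →+* ℂ) (h₀ : ∀ τ : E₀ →+* ℂ, ∃ y : E₀ →+* L, j.comp y = τ) (r : ℕ)
    (hno : NoOrder E₀ r) (g : L ≃ₐ[ℚ] L) (hg : ∀ y : E₀ →+* L, (g ^ r) • y = y)
    (y : E₀ →+* L) : g • y = y := by
  obtain ⟨σ, hσ⟩ := exists_aut j (g : L ≃+* L)
  have hpow : ∀ (s : ℕ) (x : L), (σ ^ s) (j x) = j ((g ^ s) x) := by
    intro s
    induction s with
    | zero =>
      intro x
      rw [pow_zero, pow_zero]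
      rfl
    | succ s ih =>
      intro x
      rw [pow_succ, pow_succ, RingAut.mul_apply, AlgEquiv.mul_apply, hσ, ih]
      rfl
  have h1 := hno σ (by
    intro τ
    obtain ⟨z, rfl⟩ := h₀ τ
    ext x
    have h2 := RingHom.congr_fun (hg z) x
    change (σ ^ r) (j (z x)) = j (z x)
    rw [hpow]
    exact congrArg j h2) (j.comp y)
  ext x
  apply j.injective
  have h2 := RingHom.congr_fun h1 x
  rw [emb_smul_apply]
  exact (hσ (y x)).symm.trans h2

theorem card_tower (j : L →+* ℂ) (h : ∀ ψ : E →+* ℂ, ∃ φ : E →+* L, j.comp φ = ψ)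
    (h₀ : ∀ τ : E₀ →+* ℂ, ∃ y : E₀ →+* L, j.comp y = τ) :
    Fintype.card (E →+* L) = Fintype.card (E₀ →+* L) * finrank E₀ E := by
  rw [card_emb j h, card_emb j h₀]
  have _ : IsScalarTower ℚ E₀ E := inferInstance
  exact (finrank_mul_finrank ℚ E₀ E).symm

/-- The vector of signs of a CM type that is not exceptional with respect to a subfield satisfies
no relation. -/
theorem single_tower {Φ : Set (E →+* ℂ)} (hΦ : IsCMType Φ) (j : L →+* ℂ)
    (h : ∀ ψ : E →+* ℂ, ∃ φ : E →+* L, j.comp φ = ψ) (r k : ℕ) (hr : r.Prime) (hr2 : r ≠ 2)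
    (hdeg : finrank E₀ E = r ^ k) (hno : NoOrder E₀ r) (hex : Φ ∉ TowerExceptional E₀ E r)
    [DecidablePred (fun φ : E →+* L => j.comp φ ∈ Φ)]
    (c : (E →+* L) → ℤ) (hc : ∀ φ, c (cbar φ) = -c φ)
    (hrel : ∀ g : L ≃ₐ[ℚ] L, ∑ φ, c φ * (if j.comp (g • φ) ∈ Φ then (1 : ℤ) else -1) = 0) :
    ∀ φ, c φ = 0 := by
  classical
  have _ : Fact r.Prime := ⟨hr⟩
  have h₀ : ∀ τ : E₀ →+* ℂ, ∃ y : E₀ →+* L, j.comp y = τ := by
    intro τ
    obtain ⟨ψ, rfl⟩ := exists_extension (E := E) τ
    obtain ⟨φ, rfl⟩ := h ψ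
    exact ⟨φ.comp (algebraMap E₀ E), rfl⟩
  by_contra hcon
  push Not at hcon
  obtain ⟨b, ⟨y₀, hy₀⟩, hb1, hb2⟩ := core_tower (G := L ≃ₐ[ℚ] L) (R := E →+* L) (R₀ := E₀ →+* L)
    (inv := cbar) (inv₀ := cbar) (fun x => cbar_cbar x) (fun x => cbar_ne x) (fun g x => rfl)
    (fun φ => φ.comp (algebraMap E₀ E)) (fun g x => rfl) (fun x => cbar_restrict x j) r k
    (by rw [card_tower j h h₀, hdeg]) (noOrder_gal j h₀ r hno)
    (fun φ => if j.comp φ ∈ Φ then (1 : ℤ) else -1) c (fun x => sign_cbar hΦ j x) hc hrel hcon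
  have hr2' : (2 : ZMod r) ≠ 0 := by
    intro h2
    have h3 : ((2 : ℕ) : ZMod r) = 0 := by exact_mod_cast h2
    rw [ZMod.natCast_eq_zero_iff] at h3
    have h4 := Nat.le_of_dvd two_pos h3
    have h5 := hr.two_le
    omega
  -- the sum of `b` over all embeddings vanishes
  have hsum : ∑ x : E →+* L, b (x.comp (algebraMap E₀ E)) = 0 := by
    have h1 : ∑ x : E →+* L, b (x.comp (algebraMap E₀ E)) =
        ∑ x : E →+* L, b ((cbar x).comp (algebraMap E₀ E)) :=
      (Fintype.sum_equiv (Function.Involutive.toPerm (cbar : (E →+* L) → (E →+* L))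
        (fun x => cbar_cbar x)) _ _ (fun x => rfl)).symm
    have h2 : ∑ x : E →+* L, b ((cbar x).comp (algebraMap E₀ E)) =
        - ∑ x : E →+* L, b (x.comp (algebraMap E₀ E)) := by
      rw [← Finset.sum_neg_distrib]
      refine Finset.sum_congr rfl fun x _ => ?_
      rw [cbar_restrict x j, hb1]
    rw [h2] at h1
    have h3 : (2 : ZMod r) * ∑ x : E →+* L, b (x.comp (algebraMap E₀ E)) = 0 := by
      linear_combination h1
    exact (mul_eq_zero.1 h3).resolve_left hr2'
  apply hex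
  refine ⟨hΦ, fun τ => b ((embEquiv j h₀).symm τ), ⟨j.comp y₀, ?_⟩, ?_, ?_⟩
  · have h1 : (embEquiv j h₀).symm (j.comp y₀) = y₀ := (embEquiv j h₀).symm_apply_apply y₀
    change b ((embEquiv j h₀).symm (j.comp y₀)) ≠ 0
    rw [h1]
    exact hy₀
  · intro τ
    obtain ⟨y, rfl⟩ := h₀ τ
    change b ((embEquiv j h₀).symm (ComplexEmbedding.conjugate (j.comp y))) =
      -b ((embEquiv j h₀).symm (j.comp y))
    rw [← comp_cbar]
    have h1 : (embEquiv j h₀).symm (j.comp y) = y := (embEquiv j h₀).symm_apply_apply y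
    have h2 : (embEquiv j h₀).symm (j.comp (cbar y)) = cbar y :=
      (embEquiv j h₀).symm_apply_apply (cbar y)
    rw [h1, h2, hb1]
  · intro σ
    obtain ⟨g, hg⟩ := exists_gal j σ
    have hmult : ∀ y : E₀ →+* L, mult (E := E) Φ ((σ : ℂ →+* ℂ).comp (j.comp y)) =
        (Finset.univ.filter (fun x : E →+* L => x.comp (algebraMap E₀ E) = y ∧
          j.comp (g • x) ∈ Φ)).card := by
      intro y
      unfold mult
      rw [← Set.ncard_coe_finset, ← Set.ncard_image_of_injective _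
        (f := fun x : E →+* L => j.comp (g • x))
        (fun a b hab => smul_left_cancel g (comp_injective (E := E) j hab))]
      congr 1
      ext ψ
      constructor
      · rintro ⟨hψ, hψ2⟩
        obtain ⟨z, rfl⟩ := h ψ
        refine ⟨g⁻¹ • z, ?_, by
          change j.comp (g • (g⁻¹ • z)) = _
          rw [smul_inv_smul]⟩
        rw [Finset.coe_filter]
        refine ⟨Finset.mem_univ _, ?_, by rw [smul_inv_smul]; exact hψ⟩
        ext x
        apply g.injective
        apply j.injective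
        have h1 := RingHom.congr_fun hψ2 x
        change j (z (algebraMap E₀ E x)) = σ (j (y x)) at h1
        rw [hg] at h1
        rw [← h1]
        change j (g (g⁻¹ (z (algebraMap E₀ E x)))) = _
        rw [← AlgEquiv.mul_apply, mul_inv_cancel, AlgEquiv.one_apply]
      · rintro ⟨z, hz, rfl⟩
        rw [Finset.coe_filter] at hz
        refine ⟨hz.2.2, ?_⟩
        ext x
        change j (g (z (algebraMap E₀ E x))) = σ (j (y x))
        rw [hg, ← hz.2.1]
        rfl
    have h1 := hb2 g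
    have h2 : ∀ x : E →+* L, b (x.comp (algebraMap E₀ E)) *
        (((if j.comp (g • x) ∈ Φ then (1 : ℤ) else -1) : ℤ) : ZMod r) =
        2 * (if j.comp (g • x) ∈ Φ then b (x.comp (algebraMap E₀ E)) else 0) -
          b (x.comp (algebraMap E₀ E)) := by
      intro x
      split_ifs
      · push_cast
        ring
      · push_cast
        ring
    rw [Finset.sum_congr rfl (fun x _ => h2 x), Finset.sum_sub_distrib, hsum, sub_zero,
      ← Finset.mul_sum] at h1
    have h3 := (mul_eq_zero.1 h1).resolve_left hr2'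
    rw [← h3]
    -- regroup by the restriction
    rw [← Finset.sum_fiberwise_of_maps_to (s := (Finset.univ : Finset (E →+* L)))
      (t := (Finset.univ : Finset (E₀ →+* L))) (g := fun x => x.comp (algebraMap E₀ E))
      (fun x _ => Finset.mem_univ _)]
    refine Fintype.sum_equiv (embEquiv j h₀).symm _ _ ?_
    intro τ
    obtain ⟨y, rfl⟩ := h₀ τ
    have h4 : (embEquiv j h₀).symm (j.comp y) = y := (embEquiv j h₀).symm_apply_apply y
    rw [hmult, h4]
    rw [Finset.sum_congr rfl (g := fun x : E →+* L => if j.comp (g • x) ∈ Φ then b y else 0) (by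
      intro x hx
      rw [(Finset.mem_filter.1 hx).2])]
    rw [← Finset.sum_filter, Finset.sum_const, Finset.filter_filter, nsmul_eq_mul, mul_comm]
    exact congrArg₂ (· * ·) rfl (congrArg b h4)

theorem nondeg_of_not_towerExceptional {ι : Type*} [Fintype ι] {E₀ E : ι → Type*}
    [∀ i, Field (E₀ i)] [∀ i, NumberField (E₀ i)] [∀ i, IsCMField (E₀ i)]
    [∀ i, Field (E i)] [∀ i, NumberField (E i)] [∀ i, IsCMField (E i)]
    [∀ i, Algebra (E₀ i) (E i)]
    {L : Type*} [Field L] [NumberField L] [IsGalois ℚ L]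
    {Φ : ∀ i, Set (E i →+* ℂ)} (hΦ : ∀ i, IsCMType (Φ i)) (j : L →+* ℂ)
    (h : ∀ i, ∀ ψ : E i →+* ℂ, ∃ φ : E i →+* L, j.comp φ = ψ)
    (r k : ι → ℕ) (hr : ∀ i, (r i).Prime) (hr2 : ∀ i, r i ≠ 2)
    (hdeg : ∀ i, finrank (E₀ i) (E i) = r i ^ k i) (hno : ∀ i, NoOrder (E₀ i) (r i))
    (hind : PairwiseIndep E)
    (hex : ∀ i, Φ i ∉ TowerExceptional (E₀ i) (E i) (r i)) :
    Nondeg Φ j := by
  classical
  intro c hc hrel i
  refine single_tower (E₀ := E₀ i) (hΦ i) j (h i) (r i) (k i) (hr i) (hr2 i) (hdeg i) (hno i)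
    (hex i) (c i) (hc i) ?_
  intro g
  refine indep (G := L ≃ₐ[ℚ] L) (fun i => E i →+* L) (fun i => cbar)
    (fun i φ => if j.comp φ ∈ Φ i then (1 : ℤ) else -1) (fun i φ => sign_cbar (hΦ i) j φ)
    (fun g i φ => rfl) ?_ c (fun g => ?_) i g
  · intro i i' hii φ ψ
    obtain ⟨σ, hσ1, hσ2⟩ := hind i i' hii (j.comp φ) (j.comp ψ)
    obtain ⟨g, hg⟩ := exists_gal j σ
    refine ⟨g, ?_, ?_⟩
    · ext x
      apply j.injective
      rw [emb_smul_apply, ← hg]
      exact hσ1 x
    · ext x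
      apply j.injective
      rw [emb_smul_apply, ← hg]
      have h1 := RingHom.congr_fun (comp_cbar j ψ) x
      rw [ComplexEmbedding.conjugate_coe_eq] at h1
      exact (hσ2 x).trans h1.symm
  · exact hrel g

end

end Pool.Agent.H977R3.CM
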